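import Mathlib

namespace Pool.Agent.Work.MP_b5bb8b_co

/-- The nonbacktracking matrix of a simple graph, indexed by the directed edges. -/
def nonbacktrackingMatrix {V : Type} [DecidableEq V] (G : SimpleGraph V) :
    Matrix G.Dart G.Dart ℂ :=
  fun a b => if a.snd = b.fst ∧ a.fst ≠ b.snd then 1 else 0

/-- The `s × s` Jordan block with eigenvalue `c`. -/
def jordanBlock (s : ℕ) (c : ℂ) : Matrix (Fin s) (Fin s) ℂ :=
  fun i j => if i = j then c else if (i : ℕ) + 1 = (j : ℕ) then 1 else 0

/-- `M` has a Jordan normal form `M = P J Q`, `Q` the inverse of `P`, with `J` block diagonal with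
nonempty Jordan blocks on the diagonal, one of which has size `s`. -/
def HasJordanBlock {ι : Type} [Fintype ι] [DecidableEq ι] (M : Matrix ι ι ℂ) (s : ℕ) : Prop :=
  ∃ (r : ℕ) (size : Fin r → ℕ) (ev : Fin r → ℂ)
    (P : Matrix ι (Σ k, Fin (size k)) ℂ) (Q : Matrix (Σ k, Fin (size k)) ι ℂ),
    (∀ k, 0 < size k) ∧ P * Q = 1 ∧ Q * P = 1 ∧
    M = P * Matrix.blockDiagonal' (fun k => jordanBlock (size k) (ev k)) * Q ∧
    ∃ k, size k = s

/-- All sizes of Jordan blocks of nonbacktracking matrices of `n`-vertex graphs which have no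
vertex of degree exactly `1` and at least one edge. -/
def blockSizes (n : ℕ) : Set ℕ :=
  {s | ∃ (V : Type) (_ : Fintype V) (_ : DecidableEq V) (G : SimpleGraph V)
      (_ : DecidableRel G.Adj), Fintype.card V = n ∧ (∀ v, G.degree v ≠ 1) ∧
      (∃ u v, G.Adj u v) ∧ HasJordanBlock (nonbacktrackingMatrix G) s}

/-- The largest size of a Jordan block occurring in `blockSizes n`. -/
noncomputable def f (n : ℕ) : ℕ := sSup (blockSizes n)

end Pool.Agent.Work.MP_b5bb8b_co
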