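import Mathlib
import Pool.Agent.Work.MP_b5bb8b_co.Defs

namespace Pool.Agent.Work.MP_b5bb8b_co

open Polynomial

noncomputable def stdPoly (c : ℂ) (e : ℕ) : (Fin e → ℂ) →ₗ[ℂ] ℂ[X] :=
  Fintype.linearCombination ℂ (fun j : Fin e => (X - C c) ^ (e - 1 - (j : ℕ)))

noncomputable def stdMap (c : ℂ) (e : ℕ) :
    (Fin e → ℂ) →ₗ[ℂ] (ℂ[X] ⧸ Ideal.span {(X - C c) ^ e}) :=
  (Ideal.Quotient.mkₐ ℂ (Ideal.span {(X - C c) ^ e})).toLinearMap ∘ₗ stdPoly c e

lemma stdMap_single (c : ℂ) (e : ℕ) (j : Fin e) :
    stdMap c e (Pi.single j 1) =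
      Ideal.Quotient.mk (Ideal.span {(X - C c) ^ e}) ((X - C c) ^ (e - 1 - (j : ℕ))) := by
  simp [stdMap, stdPoly, Fintype.linearCombination_apply_single]

lemma stdPoly_apply (c : ℂ) (e : ℕ) (v : Fin e → ℂ) :
    stdPoly c e v = ∑ j : Fin e, C (v j) * (X - C c) ^ (e - 1 - (j : ℕ)) := by
  rw [stdPoly, Fintype.linearCombination_apply]
  refine Finset.sum_congr rfl fun j _ => ?_
  rw [Polynomial.smul_eq_C_mul]

lemma stdMap_injective (c : ℂ) (e : ℕ) : Function.Injective (stdMap c e) := by
  rw [injective_iff_map_eq_zero]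
  intro v hv
  have h1 : stdMap c e v = Ideal.Quotient.mk (Ideal.span {(X - C c) ^ e})
      (∑ j : Fin e, C (v j) * (X - C c) ^ (e - 1 - (j : ℕ))) := by
    rw [← stdPoly_apply]; rfl
  rw [h1, Ideal.Quotient.eq_zero_iff_mem, Ideal.mem_span_singleton] at hv
  set g : ℂ[X] := ∑ j : Fin e, C (v j) * (X - C c) ^ (e - 1 - (j : ℕ)) with hg
  have hg0 : g = 0 := by
    by_contra hne
    have h2 := Polynomial.degree_le_of_dvd hv hne
    have h3 : g.degree < e := by
      rw [hg]
      refine lt_of_le_of_lt (Polynomial.degree_sum_le _ _) ?_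
      rw [Finset.sup_lt_iff (by exact WithBot.bot_lt_coe e)]
      intro j _
      refine lt_of_le_of_lt (Polynomial.degree_mul_le _ _) ?_
      rw [Polynomial.degree_pow, Polynomial.degree_X_sub_C]
      simp only [nsmul_eq_mul, mul_one]
      have hj := j.2
      refine lt_of_le_of_lt (add_le_add_left Polynomial.degree_C_le _) ?_
      rw [zero_add]
      exact_mod_cast (by omega : e - 1 - (j : ℕ) < e)
    rw [Polynomial.degree_pow, Polynomial.degree_X_sub_C] at h2
    simp only [nsmul_eq_mul, mul_one] at h2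
    exact absurd (lt_of_le_of_lt h2 h3) (lt_irrefl _)
  have h4 : g.comp (X + C c) = 0 := by rw [hg0, Polynomial.zero_comp]
  have h5 : g.comp (X + C c) =
      ∑ j : Fin e, C (v j) * X ^ (e - 1 - (j : ℕ)) := by
    rw [hg, Polynomial.sum_comp]
    refine Finset.sum_congr rfl fun j _ => ?_
    simp
  rw [h5] at h4
  funext i
  have h6 := congrArg (fun p => Polynomial.coeff p (e - 1 - (i : ℕ))) h4
  simp only [Polynomial.finsetSum_coeff, Polynomial.coeff_C_mul, Polynomial.coeff_X_pow,
    Polynomial.coeff_zero] at h6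
  rw [Finset.sum_eq_single i] at h6
  · simpa using h6
  · intro j _ hj
    rw [if_neg, mul_zero]
    intro h
    apply hj
    have := j.2
    have := i.2
    exact Fin.ext (by omega)
  · simp

lemma stdMap_bijective (c : ℂ) (e : ℕ) : Function.Bijective (stdMap c e) := by
  have hfr : Module.finrank ℂ (ℂ[X] ⧸ Ideal.span {(X - C c) ^ e}) = e := by
    rw [finrank_quotient_span_eq_natDegree, Polynomial.natDegree_pow,
      Polynomial.natDegree_X_sub_C, mul_one]
  have hfin : Module.Finite ℂ (ℂ[X] ⧸ Ideal.span {(X - C c) ^ e}) := by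
    have : ((X - C c) ^ e).Monic := (Polynomial.monic_X_sub_C c).pow e
    exact this.finite_quotient
  refine ⟨stdMap_injective c e, ?_⟩
  refine (LinearMap.injective_iff_surjective_of_finrank_eq_finrank ?_).mp (stdMap_injective c e)
  rw [hfr]; simp

/-- the vector below `j` in a Jordan chain, or zero -/
def below {V : Type*} [Zero V] {κ : Type*} {size : κ → ℕ} (b : (Σ k, Fin (size k)) → V)
    (k : κ) (j : Fin (size k)) : V :=
  if _h : 0 < (j : ℕ) then b ⟨k, ⟨(j : ℕ) - 1, by omega⟩⟩ else 0

lemma toLin_blockDiagonal {κ V : Type*} [Fintype κ] [DecidableEq κ] [AddCommGroup V] [Module ℂ V]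
    (size : κ → ℕ) (ev : κ → ℂ) (b : Module.Basis (Σ k, Fin (size k)) ℂ V)
    (k : κ) (j : Fin (size k)) :
    Matrix.toLin b b (Matrix.blockDiagonal' (fun k => jordanBlock (size k) (ev k))) (b ⟨k, j⟩) =
      ev k • b ⟨k, j⟩ + below b k j := by
  rw [Matrix.toLin_self, Fintype.sum_sigma, Finset.sum_eq_single k]
  · simp only [Matrix.blockDiagonal'_apply_eq, jordanBlock, below]
    by_cases hj : 0 < (j : ℕ)
    · rw [dif_pos hj]
      have hsplit : ∀ i : Fin (size k), (if i = j then ev k else if (i : ℕ) + 1 = (j : ℕ) then 1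
          else 0) • b ⟨k, i⟩ = (if i = j then ev k • b ⟨k, i⟩ else 0) +
          (if i = ⟨(j : ℕ) - 1, by omega⟩ then b ⟨k, i⟩ else 0) := by
        intro i
        by_cases h1 : i = j
        · subst h1
          have : ¬ (i = ⟨(i : ℕ) - 1, by omega⟩) := by
            intro h
            have := congrArg Fin.val h
            simp at this
            omega
          simp [this]
        · by_cases h2 : (i : ℕ) + 1 = (j : ℕ)
          · have : i = ⟨(j : ℕ) - 1, by omega⟩ := Fin.ext (by simp; omega)
            rw [if_neg h1, if_pos h2, if_neg h1, if_pos this]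
            simp
          · have : ¬ (i = ⟨(j : ℕ) - 1, by omega⟩) := by
              intro h
              have := congrArg Fin.val h
              simp at this
              omega
            rw [if_neg h1, if_neg h2, if_neg h1, if_neg this]
            simp
      rw [Finset.sum_congr rfl (fun i _ => hsplit i), Finset.sum_add_distrib]
      simp
    · rw [dif_neg hj]
      have hsplit : ∀ i : Fin (size k), (if i = j then ev k else if (i : ℕ) + 1 = (j : ℕ) then 1
          else 0) • b ⟨k, i⟩ = (if i = j then ev k • b ⟨k, i⟩ else 0) := by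
        intro i
        by_cases h1 : i = j
        · simp [h1]
        · rw [if_neg h1, if_neg (by omega), if_neg h1]
          simp
      rw [Finset.sum_congr rfl (fun i _ => hsplit i)]
      simp
  · intro k' _ hk'
    refine Finset.sum_eq_zero fun i _ => ?_
    rw [Matrix.blockDiagonal'_apply_ne _ _ _ hk', zero_smul]
  · simp

lemma toMatrix_eq_iff {κ V : Type*} [Fintype κ] [DecidableEq κ] [AddCommGroup V] [Module ℂ V]
    (size : κ → ℕ) (ev : κ → ℂ) (b : Module.Basis (Σ k, Fin (size k)) ℂ V) (φ : V →ₗ[ℂ] V) :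
    LinearMap.toMatrix b b φ = Matrix.blockDiagonal' (fun k => jordanBlock (size k) (ev k)) ↔
      ∀ k (j : Fin (size k)), φ (b ⟨k, j⟩) = ev k • b ⟨k, j⟩ + below b k j := by
  constructor
  · intro h k j
    rw [← toLin_blockDiagonal size ev b k j, ← h, Matrix.toLin_toMatrix]
  · intro h
    have : φ = Matrix.toLin b b
        (Matrix.blockDiagonal' (fun k => jordanBlock (size k) (ev k))) := by
      refine b.ext fun ⟨k, j⟩ => ?_
      rw [toLin_blockDiagonal, h]
    rw [this, LinearMap.toMatrix_toLin]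

end Pool.Agent.Work.MP_b5bb8b_co
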