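import Mathlib
import Pool.Agent.Work.MP_b5bb8b_co.Jordan

namespace Pool.Agent.Work.MP_b5bb8b_co

open Polynomial

set_option linter.unusedSectionVars false

/-- decomposition of the module of an endomorphism into cyclic modules -/
lemma exists_decomp {V : Type} [AddCommGroup V] [Module ℂ V] [Module.Finite ℂ V]
    (φ : Module.End ℂ V) :
    ∃ (I : Type) (_ : Fintype I) (_ : DecidableEq I) (lam : I → ℂ) (e : I → ℕ),
      Nonempty (Module.AEval' φ ≃ₗ[ℂ[X]] (∀ i, ℂ[X] ⧸ Ideal.span {(X - C (lam i)) ^ e i})) := by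
  classical
  obtain ⟨I, hI, p, hp, e, ⟨E⟩⟩ := Module.equiv_directSum_of_isTorsion (R := ℂ[X])
    (M := Module.AEval' φ) (Module.AEval.isTorsion_of_finiteDimensional ℂ V φ)
  have h : ∀ i, ∃ c : ℂ, Ideal.span {p i ^ e i} = Ideal.span {(X - C c) ^ e i} := by
    intro i
    have h1 := IsAlgClosed.degree_eq_one_of_irreducible ℂ (hp i)
    obtain ⟨c, hc⟩ := Polynomial.exists_root_of_degree_eq_one h1
    refine ⟨c, ?_⟩
    have h2 : (X - C c) ∣ p i := Polynomial.dvd_iff_isRoot.mpr hc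
    have h3 : Associated (X - C c) (p i) :=
      (Polynomial.irreducible_X_sub_C c).associated_of_dvd (hp i) h2
    exact (Ideal.span_singleton_eq_span_singleton.mpr (h3.pow_pow)).symm
  choose lam hlam using h
  refine ⟨I, hI, inferInstance, lam, e, ⟨?_⟩⟩
  exact (E.trans (DFinsupp.mapRange.linearEquiv fun i =>
    Submodule.quotEquivOfEq _ _ (hlam i))).trans (DirectSum.linearEquivFunOnFintype ℂ[X] I _)

section

variable {V : Type} [AddCommGroup V] [Module ℂ V] [Module.Finite ℂ V]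
  (φ : Module.End ℂ V) {I : Type} [Fintype I] [DecidableEq I] (lam : I → ℂ) (e : I → ℕ)
  (E : Module.AEval' φ ≃ₗ[ℂ[X]] (∀ i, ℂ[X] ⧸ Ideal.span {(X - C (lam i)) ^ e i}))

/-- the vector of `V` that corresponds to `(X - lam i)^m` in the `i`-th factor -/
noncomputable def vec (i : I) (m : ℕ) : V :=
  (Module.AEval'.of φ).symm (E.symm (Pi.single i
    (Ideal.Quotient.mk (Ideal.span {(X - C (lam i)) ^ e i}) ((X - C (lam i)) ^ m))))

lemma phi_vec (i : I) (m : ℕ) :
    φ (vec φ lam e E i m) = lam i • vec φ lam e E i m + vec φ lam e E i (m + 1) := by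
  have h1 : Module.AEval'.of φ (φ (vec φ lam e E i m)) =
      (X : ℂ[X]) • (Module.AEval'.of φ (vec φ lam e E i m)) := by
    rw [Module.AEval'.X_smul_of]
  apply (Module.AEval'.of φ).injective
  rw [h1, map_add, map_smul]
  simp only [vec, LinearEquiv.apply_symm_apply]
  have h2 : ∀ y : Module.AEval' φ, lam i • y = (C (lam i)) • y := by
    intro y; rw [Module.AEval.C_smul]
  rw [h2, ← map_smul, ← map_smul, ← map_add]
  congr 1
  rw [← Pi.single_smul, ← Pi.single_smul, ← Pi.single_add]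
  congr 1
  rw [← Ideal.Quotient.mkₐ_eq_mk ℂ]
  have h3 : ∀ (p q : ℂ[X]), p • (Ideal.Quotient.mk (Ideal.span {(X - C (lam i)) ^ e i}) q) =
      Ideal.Quotient.mk (Ideal.span {(X - C (lam i)) ^ e i}) (p * q) := fun p q => rfl
  simp only [Ideal.Quotient.mkₐ_eq_mk]
  rw [h3, h3, ← map_add]
  congr 1
  ring

lemma vec_eq_zero (i : I) (m : ℕ) (hm : e i ≤ m) : vec φ lam e E i m = 0 := by
  have : Ideal.Quotient.mk (Ideal.span {(X - C (lam i)) ^ e i}) ((X - C (lam i)) ^ m) = 0 := by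
    rw [Ideal.Quotient.eq_zero_iff_mem, Ideal.mem_span_singleton]
    exact pow_dvd_pow _ hm
  rw [vec, this, Pi.single_zero, map_zero, map_zero]

/-- the Jordan basis -/
noncomputable def jbasis : Module.Basis (Σ i, Fin (e i)) ℂ V :=
  (Pi.basis fun i => (Pi.basisFun ℂ (Fin (e i))).map
    (LinearEquiv.ofBijective (stdMap (lam i) (e i)) (stdMap_bijective (lam i) (e i)))).map
    ((E.restrictScalars ℂ).symm.trans (Module.AEval'.of φ).symm)

lemma jbasis_apply (i : I) (j : Fin (e i)) :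
    jbasis φ lam e E ⟨i, j⟩ = vec φ lam e E i (e i - 1 - (j : ℕ)) := by
  simp only [jbasis, vec, Module.Basis.map_apply, Pi.basis_apply, Pi.basisFun_apply,
    LinearEquiv.ofBijective_apply, stdMap_single, LinearEquiv.trans_apply]
  rfl

end

/-- the basis version of `HasJordanBlock` -/
def HasJB {ι : Type} [Fintype ι] [DecidableEq ι] (M : Matrix ι ι ℂ) (s : ℕ) : Prop :=
  ∃ (r : ℕ) (size : Fin r → ℕ) (ev : Fin r → ℂ)
    (b : Module.Basis (Σ k, Fin (size k)) ℂ (ι → ℂ)),
    (∀ k, 0 < size k) ∧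
    LinearMap.toMatrix b b (Matrix.toLin' M) =
      Matrix.blockDiagonal' (fun k => jordanBlock (size k) (ev k)) ∧
    ∃ k, size k = s

theorem HasJB.hasJordanBlock {ι : Type} [Fintype ι] [DecidableEq ι] {M : Matrix ι ι ℂ} {s : ℕ}
    (h : HasJB M s) : HasJordanBlock M s := by
  obtain ⟨r, size, ev, b, h1, h2, h3⟩ := h
  refine ⟨r, size, ev, (Pi.basisFun ℂ ι).toMatrix b, b.toMatrix (Pi.basisFun ℂ ι), h1, ?_, ?_,
    ?_, h3⟩
  · exact Module.Basis.toMatrix_mul_toMatrix_flip _ _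
  · exact Module.Basis.toMatrix_mul_toMatrix_flip _ _
  · rw [← h2, basis_toMatrix_mul_linearMap_toMatrix_mul_basis_toMatrix,
      LinearMap.toMatrix_eq_toMatrix', LinearMap.toMatrix'_toLin']

theorem hasJordanBlock_of_decomp {ι : Type} [Fintype ι] [DecidableEq ι] (M : Matrix ι ι ℂ)
    {I : Type} [Fintype I] [DecidableEq I] (lam : I → ℂ) (e : I → ℕ)
    (E : Module.AEval' (Matrix.toLin' M : Module.End ℂ (ι → ℂ)) ≃ₗ[ℂ[X]]
      (∀ i, ℂ[X] ⧸ Ideal.span {(X - C (lam i)) ^ e i})) (i₀ : I) (h₀ : 0 < e i₀) :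
    HasJB M (e i₀) := by
  classical
  let κ := {i : I // 0 < e i}
  let ε : Fin (Fintype.card κ) ≃ κ := (Fintype.equivFin κ).symm
  let size : Fin (Fintype.card κ) → ℕ := fun k => e (ε k).1
  let g : (Σ k, Fin (size k)) → (Σ i, Fin (e i)) := fun x => ⟨(ε x.1).1, x.2⟩
  have hg : Function.Bijective g := by
    constructor
    · rintro ⟨k, j⟩ ⟨k', j'⟩ h
      simp only [g, Sigma.mk.injEq] at h
      obtain ⟨h1, h2⟩ := h
      have h3 : k = k' := ε.injective (Subtype.ext h1)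
      subst h3
      simpa using h2
    · rintro ⟨i, j⟩
      have hi : 0 < e i := lt_of_le_of_lt (Nat.zero_le _) j.2
      obtain ⟨k, hk⟩ := ε.surjective ⟨i, hi⟩
      have hk' : (ε k).1 = i := by rw [hk]
      subst hk'
      exact ⟨⟨k, j⟩, rfl⟩
  let F : (Σ k, Fin (size k)) ≃ (Σ i, Fin (e i)) := Equiv.ofBijective g hg
  let b : Module.Basis (Σ k, Fin (size k)) ℂ (ι → ℂ) :=
    (jbasis (Matrix.toLin' M) lam e E).reindex F.symm
  have hb : ∀ k (j : Fin (size k)), b ⟨k, j⟩ =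
      vec (Matrix.toLin' M) lam e E (ε k).1 (e (ε k).1 - 1 - (j : ℕ)) := by
    intro k j
    simp only [b, Module.Basis.reindex_apply, Equiv.symm_symm]
    exact jbasis_apply (Matrix.toLin' M) lam e E (ε k).1 j
  refine ⟨Fintype.card κ, size, fun k => lam (ε k).1, b, fun k => (ε k).2, ?_, ?_⟩
  · rw [toMatrix_eq_iff]
    intro k j
    rw [hb, phi_vec]
    congr 1
    have hj : (j : ℕ) < e (ε k).1 := j.2
    by_cases h : 0 < (j : ℕ)
    · rw [below, dif_pos h, hb]
      congr 1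
      simp only
      omega
    · rw [below, dif_neg h]
      apply vec_eq_zero
      omega
  · exact ⟨ε.symm ⟨i₀, h₀⟩, by simp [size]⟩

theorem exists_hasJordanBlock {ι : Type} [Fintype ι] [DecidableEq ι] (M : Matrix ι ι ℂ)
    (c : ℂ) (L : ℕ) (x : ι → ℂ)
    (h1 : ((Matrix.toLin' M - algebraMap ℂ (Module.End ℂ (ι → ℂ)) c) ^ L) x ≠ 0)
    (h2 : ((Matrix.toLin' M - algebraMap ℂ (Module.End ℂ (ι → ℂ)) c) ^ (L + 1)) x = 0) :
    ∃ s, L + 1 ≤ s ∧ HasJordanBlock M s := by
  classical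
  obtain ⟨I, _, _, lam, e, ⟨E⟩⟩ := exists_decomp (V := ι → ℂ) (Matrix.toLin' M)
  set φ : Module.End ℂ (ι → ℂ) := Matrix.toLin' M with hφ
  have key : ∀ m : ℕ, E (Module.AEval'.of φ (((φ - algebraMap ℂ _ c) ^ m) x)) =
      ((X - C c) ^ m : ℂ[X]) • E (Module.AEval'.of φ x) := by
    intro m
    rw [← map_smul]
    congr 1
    have h3 : aeval φ ((X - C c) ^ m : ℂ[X]) = (φ - algebraMap ℂ _ c) ^ m := by
      rw [map_pow, map_sub, aeval_X, aeval_C]
    have h4 := Module.AEval.of_aeval_smul (R := ℂ) (M := ι → ℂ) φ ((X - C c) ^ m : ℂ[X]) x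
    rw [h3] at h4
    exact h4
  set y := E (Module.AEval'.of φ x) with hy
  have k1 : ((X - C c) ^ L : ℂ[X]) • y ≠ 0 := by
    rw [← key]
    intro h
    apply h1
    have := E.injective (h.trans (map_zero E).symm)
    exact (Module.AEval'.of φ).injective (this.trans (map_zero _).symm)
  have k2 : ((X - C c) ^ (L + 1) : ℂ[X]) • y = 0 := by
    rw [← key, h2, map_zero, map_zero]
  obtain ⟨i, hi⟩ : ∃ i, (((X - C c) ^ L : ℂ[X]) • y) i ≠ 0 := by
    by_contra hcon
    push Not at hcon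
    exact k1 (funext hcon)
  have hi2 : (((X - C c) ^ (L + 1) : ℂ[X]) • y) i = 0 := by rw [k2]; rfl
  obtain ⟨q, hq⟩ := Ideal.Quotient.mk_surjective (y i)
  have smul_mk : ∀ (p q : ℂ[X]), p • (Ideal.Quotient.mk (Ideal.span {(X - C (lam i)) ^ e i}) q) =
      Ideal.Quotient.mk (Ideal.span {(X - C (lam i)) ^ e i}) (p * q) := fun p q => rfl
  rw [Pi.smul_apply, ← hq, smul_mk, Ne, Ideal.Quotient.eq_zero_iff_mem,
    Ideal.mem_span_singleton] at hi
  rw [Pi.smul_apply, ← hq, smul_mk, Ideal.Quotient.eq_zero_iff_mem,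
    Ideal.mem_span_singleton] at hi2
  by_cases hc : lam i = c
  · rw [hc] at hi hi2
    have hlt : L < e i := by
      by_contra hcon
      push Not at hcon
      exact hi (Dvd.dvd.mul_right (pow_dvd_pow _ hcon) q)
    exact ⟨e i, hlt, (hasJordanBlock_of_decomp M lam e E i (by omega)).hasJordanBlock⟩
  · exfalso
    apply hi
    have hcop : IsCoprime ((X - C (lam i)) ^ e i) ((X - C c) ^ (L + 1)) := by
      apply IsCoprime.pow
      exact Polynomial.isCoprime_X_sub_C_of_isUnit_sub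
        (sub_ne_zero.mpr hc).isUnit
    exact Dvd.dvd.mul_left (hcop.dvd_of_dvd_mul_left hi2) _

/-- a Jordan block of size `s` gives a Jordan chain of length `s` -/
theorem exists_chain_of_hasJordanBlock {ι : Type} [Fintype ι] [DecidableEq ι] (M : Matrix ι ι ℂ)
    (s : ℕ) (h : HasJordanBlock M s) :
    0 < s ∧ ∃ (c : ℂ) (g : ℕ → ι → ℂ), g 0 ≠ 0 ∧ Matrix.toLin' M (g 0) = c • g 0 ∧
      ∀ j, j + 1 < s → Matrix.toLin' M (g (j + 1)) = c • g (j + 1) + g j := by
  obtain ⟨r, size, ev, P, Q, hpos, hPQ, hQP, hM, k, rfl⟩ := h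
  set J := Matrix.blockDiagonal' (fun k => jordanBlock (size k) (ev k)) with hJ
  have hMP : M * P = P * J := by
    rw [hM, Matrix.mul_assoc, hQP, Matrix.mul_one]
  have hcol : ∀ (j : Fin (size k)) (a : ι), (M * P) a ⟨k, j⟩ =
      ∑ i, P a ⟨k, i⟩ * jordanBlock (size k) (ev k) i j := by
    intro j a
    rw [hMP, Matrix.mul_apply, Fintype.sum_sigma, Finset.sum_eq_single k]
    · simp only [hJ, Matrix.blockDiagonal'_apply_eq]
    · intro k' _ hk'
      refine Finset.sum_eq_zero fun i _ => ?_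
      rw [hJ, Matrix.blockDiagonal'_apply_ne _ _ _ hk', mul_zero]
    · simp
  have hlin : ∀ x : Σ k, Fin (size k), Matrix.toLin' M (fun a => P a x) = fun a => (M * P) a x := by
    intro x
    funext a
    simp [Matrix.toLin'_apply, Matrix.mulVec, dotProduct, Matrix.mul_apply]
  refine ⟨hpos k, ev k, fun j => if h : j < size k then (fun a => P a ⟨k, ⟨j, h⟩⟩) else 0,
    ?_, ?_, ?_⟩
  · simp only [dif_pos (hpos k)]
    intro h0
    have h1 := congrFun (congrFun hQP ⟨k, ⟨0, hpos k⟩⟩) ⟨k, ⟨0, hpos k⟩⟩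
    rw [Matrix.mul_apply, Matrix.one_apply_eq] at h1
    have h2 : ∀ a, P a ⟨k, ⟨0, hpos k⟩⟩ = 0 := fun a => congrFun h0 a
    simp [h2] at h1
  · simp only [dif_pos (hpos k)]
    rw [hlin]
    funext a
    rw [hcol, Pi.smul_apply, smul_eq_mul, Finset.sum_eq_single ⟨0, hpos k⟩]
    · simp [jordanBlock, mul_comm]
    · intro i _ hi
      rw [jordanBlock, if_neg hi, if_neg (by simp), mul_zero]
    · simp
  · intro j hj
    simp only [dif_pos hj, dif_pos (Nat.lt_of_succ_lt hj)]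
    rw [hlin]
    funext a
    rw [hcol, Pi.add_apply, Pi.smul_apply, smul_eq_mul]
    have hsplit : ∀ i : Fin (size k), P a ⟨k, i⟩ * jordanBlock (size k) (ev k) i ⟨j + 1, hj⟩ =
        (if i = ⟨j + 1, hj⟩ then ev k * P a ⟨k, i⟩ else 0) +
        (if i = ⟨j, Nat.lt_of_succ_lt hj⟩ then P a ⟨k, i⟩ else 0) := by
      intro i
      by_cases h1 : i = ⟨j + 1, hj⟩
      · have h2 : ¬ (i = ⟨j, Nat.lt_of_succ_lt hj⟩) := by
          intro h
          have h3 := congrArg Fin.val (h1.symm.trans h)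
          simp at h3
        rw [jordanBlock, if_pos h1, if_pos h1, if_neg h2]
        ring
      · by_cases h2 : i = ⟨j, Nat.lt_of_succ_lt hj⟩
        · rw [jordanBlock, if_neg h1, if_neg h1, if_pos h2, if_pos (by simp [h2])]
          ring
        · rw [jordanBlock, if_neg h1, if_neg h1, if_neg h2, if_neg]
          · ring
          · intro h
            apply h2
            apply Fin.ext
            simp only at h ⊢
            omega
    rw [Finset.sum_congr rfl (fun i _ => hsplit i), Finset.sum_add_distrib]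
    simp

end Pool.Agent.Work.MP_b5bb8b_co
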