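import Mathlib
import Pool.Agent.Work.MP_b5bb8b_co.Jordan2

namespace Pool.Agent.Work.MP_b5bb8b_co

open Polynomial

section Sums

set_option linter.unusedSectionVars false

variable {V : Type} [Fintype V] [DecidableEq V] (G : SimpleGraph V) [DecidableRel G.Adj]

lemma sum_dart {R : Type*} [AddCommMonoid R] (h : V → V → R) :
    ∑ b : G.Dart, h b.fst b.snd = ∑ u, ∑ w ∈ G.neighborFinset u, h u w := by
  classical
  rw [Finset.sum_sigma']
  refine Finset.sum_bij' (fun b _ => ⟨b.fst, b.snd⟩)
    (fun x hx => ⟨(x.1, x.2), by simpa using hx⟩) ?_ ?_ ?_ ?_ ?_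
  · intro b _
    simp [b.adj]
  · intro x hx
    simp
  · intro b _
    rfl
  · intro x hx
    rfl
  · intro b _
    rfl

lemma nb_sum {R : Type*} [AddCommGroup R] (a : G.Dart) (F : V → V → R) :
    ∑ b : G.Dart, (if a.snd = b.fst ∧ a.fst ≠ b.snd then F b.fst b.snd else 0) =
      (∑ w ∈ G.neighborFinset a.snd, F a.snd w) - F a.snd a.fst := by
  classical
  rw [sum_dart G (fun u w => if a.snd = u ∧ a.fst ≠ w then F u w else 0),
    Finset.sum_eq_single a.snd]
  · have hmem : a.fst ∈ G.neighborFinset a.snd := by simpa using a.adj.symm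
    rw [← Finset.add_sum_erase _ _ hmem, ← Finset.add_sum_erase _ (fun w => F a.snd w) hmem]
    simp only [ne_eq, true_and, not_true_eq_false, if_false, zero_add, add_sub_cancel_left]
    refine Finset.sum_congr rfl fun w hw => ?_
    rw [if_pos]
    exact fun h => (Finset.ne_of_mem_erase hw) h.symm
  · intro u _ hu
    refine Finset.sum_eq_zero fun w _ => ?_
    rw [if_neg]
    exact fun h => hu h.1.symm
  · simp

lemma nb_mul (a : G.Dart) (F : V → V → ℂ[X]) :
    ∑ b : G.Dart, C (nonbacktrackingMatrix G a b) * F b.fst b.snd =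
      (∑ w ∈ G.neighborFinset a.snd, F a.snd w) - F a.snd a.fst := by
  rw [← nb_sum]
  refine Finset.sum_congr rfl fun b _ => ?_
  rw [nonbacktrackingMatrix]
  split_ifs <;> simp

end Sums

section Chain

variable {ι : Type} [Fintype ι] [DecidableEq ι]

/-- a polynomial approximate eigenvector gives a Jordan block -/
theorem exists_block_of_poly (M : Matrix ι ι ℂ) (c : ℂ) (L : ℕ) (F : ι → ℂ[X])
    (hF : ∀ a, (X - C c) ^ (L + 1) ∣ (∑ b, C (M a b) * F b) - X * F a)
    (a₀ : ι) (h₀ : (F a₀).eval c ≠ 0) :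
    ∃ s, L + 1 ≤ s ∧ HasJordanBlock M s := by
  set g : ℕ → ι → ℂ := fun j a => (taylor c (F a)).coeff j with hg
  have hcoeff : ∀ a j, j ≤ L →
      ∑ b, M a b * g j b = c * g j a + (X * taylor c (F a)).coeff j := by
    intro a j hj
    obtain ⟨q, hq⟩ := hF a
    have h1 := congrArg (fun p => (taylor c p).coeff j) hq
    simp only [map_sub, map_sum, taylor_mul, taylor_C, taylor_X, taylor_pow] at h1
    rw [Polynomial.coeff_sub, Polynomial.finsetSum_coeff] at h1
    simp only [Polynomial.coeff_C_mul] at h1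
    have h2 : ((X + C c - C c) ^ (L + 1) * (taylor c) q).coeff j = 0 := by
      rw [add_sub_cancel_right, Polynomial.coeff_X_pow_mul', if_neg (by omega)]
    rw [h2, sub_eq_zero, add_mul, Polynomial.coeff_add, Polynomial.coeff_C_mul] at h1
    simp only [hg]
    rw [h1]
    ring
  set φ : Module.End ℂ (ι → ℂ) := Matrix.toLin' M with hφ
  have hstep0 : (φ - algebraMap ℂ _ c) (g 0) = 0 := by
    funext a
    have := hcoeff a 0 (Nat.zero_le _)
    rw [Polynomial.coeff_X_mul_zero, add_zero] at this
    simp only [LinearMap.sub_apply, Module.algebraMap_end_apply, Pi.sub_apply, Pi.smul_apply,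
      smul_eq_mul, Pi.zero_apply, hφ, Matrix.toLin'_apply, Matrix.mulVec, dotProduct]
    rw [this, sub_self]
  have hstep : ∀ j, j + 1 ≤ L → (φ - algebraMap ℂ _ c) (g (j + 1)) = g j := by
    intro j hj
    funext a
    have := hcoeff a (j + 1) hj
    rw [Polynomial.coeff_X_mul] at this
    simp only [LinearMap.sub_apply, Module.algebraMap_end_apply, Pi.sub_apply, Pi.smul_apply,
      smul_eq_mul, hφ, Matrix.toLin'_apply, Matrix.mulVec, dotProduct]
    rw [this]
    simp only [hg]
    ring
  have hpow : ∀ j, j ≤ L → ((φ - algebraMap ℂ _ c) ^ j) (g j) = g 0 := by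
    intro j
    induction j with
    | zero => intro _; rfl
    | succ j ih =>
      intro hj
      rw [pow_succ, Module.End.mul_apply, hstep j hj, ih (by omega)]
  refine exists_hasJordanBlock M c L (g L) ?_ ?_
  · rw [hpow L le_rfl]
    intro h
    apply h₀
    have := congrFun h a₀
    simpa [hg, taylor_coeff_zero] using this
  · rw [pow_succ', Module.End.mul_apply, hpow L le_rfl, hstep0]

end Chain

end Pool.Agent.Work.MP_b5bb8b_co
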