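import Mathlib
import Pool.Agent.Work.MP_b5bb8b_co.Nb

namespace Pool.Agent.Work.MP_b5bb8b_co

open Polynomial

variable {V : Type} [Fintype V] [DecidableEq V] (G : SimpleGraph V) [DecidableRel G.Adj]

/-- a vertex approximate solution of the quadratic equation gives a large Jordan block -/
theorem exists_block_of_vertex (c : ℂ) (hc : c ^ 2 ≠ 1) (L : ℕ) (x : V → ℂ[X])
    (hx : ∀ v, (X - C c) ^ (L + 1) ∣
      (X ^ 2 + (G.degree v : ℂ[X]) - 1) * x v - X * ∑ w ∈ G.neighborFinset v, x w)
    (u₀ v₀ : V) (hadj : G.Adj u₀ v₀) (h₀ : (x v₀).eval c ≠ 0) :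
    ∃ s, L + 1 ≤ s ∧ HasJordanBlock (nonbacktrackingMatrix G) s := by
  classical
  set F : V → V → ℂ[X] := fun u w => X * x w - x u with hF
  have key : ∀ a : G.Dart, (X - C c) ^ (L + 1) ∣
      (∑ b, C (nonbacktrackingMatrix G a b) * F b.fst b.snd) - X * F a.fst a.snd := by
    intro a
    have h1 := nb_mul G a F
    rw [h1]
    have h2 := hx a.snd
    rw [← dvd_neg] at h2
    convert h2 using 1
    simp only [hF]
    rw [Finset.sum_sub_distrib, ← Finset.mul_sum, Finset.sum_const,
      SimpleGraph.card_neighborFinset_eq_degree, nsmul_eq_mul]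
    ring
  by_cases h : (F u₀ v₀).eval c = 0
  · refine exists_block_of_poly (nonbacktrackingMatrix G) c L (fun a => F a.fst a.snd) key
      ⟨(v₀, u₀), hadj.symm⟩ ?_
    simp only [hF, eval_sub, eval_mul, eval_X] at h ⊢
    intro h'
    apply hc
    have h3 : (c ^ 2 - 1) * (x v₀).eval c = 0 := by linear_combination c * h + h'
    rcases mul_eq_zero.mp h3 with h4 | h4
    · linear_combination h4
    · exact absurd h4 h₀
  · exact exists_block_of_poly (nonbacktrackingMatrix G) c L (fun a => F a.fst a.snd) key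
      ⟨(u₀, v₀), hadj⟩ h

/-- the quadratic matrix polynomial `(z^2 - 1) + D - z A` -/
noncomputable def quad : Matrix V V ℂ[X] :=
  fun u w => (if u = w then X ^ 2 + (G.degree u : ℂ[X]) - 1 else 0) - (if G.Adj u w then X else 0)

lemma quad_mulVec (x : V → ℂ[X]) (u : V) :
    (quad G).mulVec x u =
      (X ^ 2 + (G.degree u : ℂ[X]) - 1) * x u - X * ∑ w ∈ G.neighborFinset u, x w := by
  simp only [Matrix.mulVec, dotProduct, quad, sub_mul, Finset.sum_sub_distrib, ite_mul, zero_mul,
    Finset.sum_ite_eq, Finset.mem_univ, if_true]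
  congr 1
  rw [Finset.mul_sum, ← Finset.sum_filter]
  refine Finset.sum_congr ?_ fun _ _ => rfl
  ext w
  simp

lemma quad_det_ne_zero (hG : ∀ v, G.degree v ≠ 1) : (quad G).det ≠ 0 := by
  intro h
  have h1 : (Polynomial.evalRingHom (0 : ℂ)) (quad G).det = 0 := by rw [h, map_zero]
  rw [RingHom.map_det] at h1
  have h2 : (Polynomial.evalRingHom (0 : ℂ)).mapMatrix (quad G) =
      Matrix.diagonal (fun u => (G.degree u : ℂ) - 1) := by
    ext u w
    simp only [RingHom.mapMatrix_apply, Matrix.map_apply, quad, coe_evalRingHom,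
      Matrix.diagonal_apply]
    split_ifs <;> simp
  rw [h2, Matrix.det_diagonal, Finset.prod_eq_zero_iff] at h1
  obtain ⟨v, _, hv⟩ := h1
  apply hG v
  have : (G.degree v : ℂ) = (1 : ℕ) := by
    rw [sub_eq_zero] at hv
    simpa using hv
  exact_mod_cast this

lemma quad_det_natDegree : (quad G).det.natDegree ≤ 2 * Fintype.card V := by
  rw [Matrix.det_apply]
  refine Polynomial.natDegree_sum_le_of_forall_le _ _ fun σ _ => ?_
  have h1 : ∀ u w, (quad G u w).natDegree ≤ 2 := by
    intro u w
    rw [quad]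
    refine (Polynomial.natDegree_sub_le _ _).trans (max_le ?_ ?_)
    · split_ifs
      · compute_degree
      · simp
    · split_ifs
      · exact Polynomial.natDegree_X_le.trans one_le_two
      · simp
  have h2 : (∏ i, quad G (σ i) i).natDegree ≤ 2 * Fintype.card V := by
    refine (Polynomial.natDegree_prod_le _ _).trans ?_
    refine (Finset.sum_le_sum fun i _ => h1 (σ i) i).trans ?_
    simp [mul_comm]
  rcases Int.units_eq_one_or (Equiv.Perm.sign σ) with h | h
  · rw [h, one_smul]; exact h2
  · rw [h]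
    simpa using h2

/-- Jordan blocks of the nonbacktracking matrix have size at most `2n+1`. -/
theorem block_le (hG : ∀ v, G.degree v ≠ 1) (s : ℕ)
    (h : HasJordanBlock (nonbacktrackingMatrix G) s) : s ≤ 2 * Fintype.card V + 1 := by
  classical
  obtain ⟨hs, c, g, hg0, hg1, hg2⟩ := exists_chain_of_hasJordanBlock _ s h
  set m : ℂ[X] := (X - C c) ^ s with hm
  -- the polynomial vector
  set F : G.Dart → ℂ[X] := fun a => ∑ j ∈ Finset.range s, C (g j a) * (X - C c) ^ j with hF
  have hFm : ∀ a, (∑ b, C (nonbacktrackingMatrix G a b) * F b) - X * F a =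
      - (C (g (s - 1) a) * m) := by
    intro a
    have hB : ∀ j, j < s → ∑ b, nonbacktrackingMatrix G a b * g j b =
        c * g j a + (if j = 0 then 0 else g (j - 1) a) := by
      intro j hj
      have : ∑ b, nonbacktrackingMatrix G a b * g j b =
          Matrix.toLin' (nonbacktrackingMatrix G) (g j) a := by
        simp [Matrix.toLin'_apply, Matrix.mulVec, dotProduct]
      rw [this]
      rcases j with _ | j
      · rw [hg1]; simp
      · rw [hg2 j hj]; simp
    have h1 : ∑ b, C (nonbacktrackingMatrix G a b) * F b =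
        ∑ j ∈ Finset.range s, C (c * g j a + (if j = 0 then 0 else g (j - 1) a)) *
          (X - C c) ^ j := by
      simp only [hF, Finset.mul_sum]
      rw [Finset.sum_comm]
      refine Finset.sum_congr rfl fun j hj => ?_
      rw [← hB j (Finset.mem_range.mp hj), map_sum, Finset.sum_mul]
      refine Finset.sum_congr rfl fun b _ => ?_
      rw [map_mul]; ring
    rw [h1]
    obtain ⟨t, rfl⟩ : ∃ t, s = t + 1 := ⟨s - 1, by omega⟩
    rw [hF]
    simp only [Finset.mul_sum, Nat.add_sub_cancel]
    rw [Finset.sum_range_succ', Finset.sum_range_succ _ t]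
    simp only [Nat.add_eq_zero_iff, one_ne_zero, and_false, if_false, Nat.add_sub_cancel,
      if_true, add_zero, pow_zero, mul_one, hm]
    have h3 : ∑ k ∈ Finset.range t, C (c * g (k + 1) a + g k a) * (X - C c) ^ (k + 1) +
        C (c * g 0 a) =
        ∑ k ∈ Finset.range (t + 1), C c * (C (g k a) * (X - C c) ^ k) +
        ∑ k ∈ Finset.range t, C (g k a) * (X - C c) ^ (k + 1) := by
      rw [Finset.sum_range_succ' _ t, add_right_comm, ← Finset.sum_add_distrib]
      congr 1
      · refine Finset.sum_congr rfl fun k _ => ?_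
        rw [map_add, map_mul]; ring
      · rw [map_mul]; ring
    rw [h3, Finset.sum_range_succ]
    have h4 : ∑ k ∈ Finset.range t, X * (C (g k a) * (X - C c) ^ k) =
        ∑ k ∈ Finset.range t, C c * (C (g k a) * (X - C c) ^ k) +
        ∑ k ∈ Finset.range t, C (g k a) * (X - C c) ^ (k + 1) := by
      rw [← Finset.sum_add_distrib]
      refine Finset.sum_congr rfl fun k _ => ?_
      ring
    rw [h4]
    ring
  set Fp : V → V → ℂ[X] := fun u w => if h : G.Adj u w then F ⟨(u, w), h⟩ else 0 with hFp
  have hFpF : ∀ a : G.Dart, Fp a.fst a.snd = F a := by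
    intro a
    simp only [hFp]
    rw [dif_pos a.adj]
  set x : V → ℂ[X] := fun v => ∑ w ∈ G.neighborFinset v, Fp v w with hx
  have hdiv : ∀ u v, G.Adj u v → m ∣ x v - Fp v u - X * Fp u v := by
    intro u v huv
    have h1 := nb_mul G ⟨(u, v), huv⟩ Fp
    simp only at h1
    have h2 := hFm ⟨(u, v), huv⟩
    have h3 : ∑ b, C (nonbacktrackingMatrix G ⟨(u, v), huv⟩ b) * F b = x v - Fp v u := by
      rw [← h1]
      refine Finset.sum_congr rfl fun b _ => ?_
      rw [← hFpF]
    rw [h3, ← hFpF] at h2
    simp only at h2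
    rw [h2, dvd_neg]
    exact dvd_mul_left _ _
  have hdiv2 : ∀ u v, G.Adj u v → m ∣ (X ^ 2 - 1) * Fp u v - (X * x v - x u) := by
    intro u v huv
    have h1 := hdiv u v huv
    have h2 := hdiv v u huv.symm
    have h3 : (X ^ 2 - 1) * Fp u v - (X * x v - x u) =
        (x u - Fp u v - X * Fp v u) - X * (x v - Fp v u - X * Fp u v) := by ring
    rw [h3]
    exact dvd_sub h2 (Dvd.dvd.mul_left h1 _)
  have hquad : ∀ u, m ∣ (quad G).mulVec x u := by
    intro u
    rw [quad_mulVec]
    have h1 : (X ^ 2 + (G.degree u : ℂ[X]) - 1) * x u - X * ∑ w ∈ G.neighborFinset u, x w =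
        ∑ w ∈ G.neighborFinset u, ((X ^ 2 - 1) * Fp u w - (X * x w - x u)) := by
      rw [Finset.sum_sub_distrib, Finset.sum_sub_distrib, ← Finset.mul_sum, ← Finset.mul_sum,
        Finset.sum_const, SimpleGraph.card_neighborFinset_eq_degree, nsmul_eq_mul]
      have : ∑ w ∈ G.neighborFinset u, Fp u w = x u := rfl
      rw [this]
      ring
    rw [h1]
    refine Finset.dvd_sum fun w hw => hdiv2 u w ?_
    simpa using hw
  have hdet : ∀ u, m ∣ (quad G).det * x u := by
    intro u
    have h1 : (quad G).det • x = (quad G).adjugate.mulVec ((quad G).mulVec x) := by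
      rw [Matrix.mulVec_mulVec, Matrix.adjugate_mul, Matrix.smul_mulVec, Matrix.one_mulVec]
    have h2 := congrFun h1 u
    rw [Pi.smul_apply, smul_eq_mul] at h2
    rw [h2, Matrix.mulVec, dotProduct]
    exact Finset.dvd_sum fun w _ => Dvd.dvd.mul_left (hquad w) _
  obtain ⟨a, ha⟩ : ∃ a, g 0 a ≠ 0 := by
    by_contra hcon
    push Not at hcon
    exact hg0 (funext hcon)
  have hFa : (F a).eval c ≠ 0 := by
    obtain ⟨t, rfl⟩ : ∃ t, s = t + 1 := ⟨s - 1, by omega⟩
    simp only [hF]
    rw [Polynomial.eval_finsetSum, Finset.sum_range_succ']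
    simpa using ha
  have hfin : m ∣ (quad G).det * (X ^ 2 - 1) * F a := by
    rw [← hFpF]
    have h1 := hdiv2 a.fst a.snd a.adj
    have h2 : (quad G).det * (X ^ 2 - 1) * Fp a.fst a.snd =
        (quad G).det * ((X ^ 2 - 1) * Fp a.fst a.snd - (X * x a.snd - x a.fst)) +
        (X * ((quad G).det * x a.snd) - (quad G).det * x a.fst) := by ring
    rw [h2]
    exact dvd_add (Dvd.dvd.mul_left h1 _)
      (dvd_sub (Dvd.dvd.mul_left (hdet _) _) (hdet _))
  have hirr := Polynomial.irreducible_X_sub_C c
  have hcop : IsCoprime m (F a) := by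
    apply IsCoprime.pow_left
    rw [hirr.coprime_iff_not_dvd, Polynomial.dvd_iff_isRoot]
    exact hFa
  have hfin2 : m ∣ (quad G).det * (X ^ 2 - 1) := hcop.dvd_of_dvd_mul_right hfin
  have hdet0 := quad_det_ne_zero G hG
  have hdeg := quad_det_natDegree G
  have hmdeg : m.natDegree = s := by
    rw [hm, Polynomial.natDegree_pow, Polynomial.natDegree_X_sub_C, mul_one]
  by_cases hc1 : c = 1
  · have hcop2 : IsCoprime m (X + 1 : ℂ[X]) := by
      apply IsCoprime.pow_left
      rw [hirr.coprime_iff_not_dvd, Polynomial.dvd_iff_isRoot]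
      simp [hc1]
    have h3 : m ∣ (quad G).det * (X - C 1) := by
      apply hcop2.dvd_of_dvd_mul_right
      convert hfin2 using 1
      simp only [map_one]
      ring
    have h4 := Polynomial.natDegree_le_of_dvd h3
      (mul_ne_zero hdet0 (Polynomial.X_sub_C_ne_zero 1))
    have h5 := Polynomial.natDegree_mul_le (p := (quad G).det) (q := X - C 1)
    rw [Polynomial.natDegree_X_sub_C] at h5
    omega
  · have hcop2 : IsCoprime m (X - C 1 : ℂ[X]) := by
      apply IsCoprime.pow_left
      rw [hirr.coprime_iff_not_dvd, Polynomial.dvd_iff_isRoot]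
      simp only [IsRoot, eval_sub, eval_X, eval_C]
      exact sub_ne_zero.mpr hc1
    have h3 : m ∣ (quad G).det * (X + C 1) := by
      apply hcop2.dvd_of_dvd_mul_right
      convert hfin2 using 1
      simp only [map_one]
      ring
    have h4 := Polynomial.natDegree_le_of_dvd h3
      (mul_ne_zero hdet0 (Polynomial.X_add_C_ne_zero 1))
    have h5 := Polynomial.natDegree_mul_le (p := (quad G).det) (q := X + C 1)
    rw [Polynomial.natDegree_X_add_C] at h5
    omega

end Pool.Agent.Work.MP_b5bb8b_co
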