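import Mathlib
import Pool.Agent.Work.MP_b5bb8b_co.Nb2

namespace Pool.Agent.Work.MP_b5bb8b_co

open Polynomial

set_option linter.unusedSectionVars false

section Lift

variable {S : Type} (T : SimpleGraph S) (c : S → ℕ) (K : ℕ)

/-- adjacency of the doubled graph -/
def liftAdj : (S × Bool) ⊕ Fin K → (S × Bool) ⊕ Fin K → Prop
  | Sum.inl p, Sum.inl q => T.Adj p.1 q.1 ∧ p.2 = q.2
  | Sum.inl p, Sum.inr w => (w : ℕ) < c p.1
  | Sum.inr w, Sum.inl p => (w : ℕ) < c p.1
  | Sum.inr _, Sum.inr _ => False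

/-- two copies of `T`, together with `K` extra vertices; the extra vertices `w < c s` are joined
to both copies of `s`. -/
def lift : SimpleGraph ((S × Bool) ⊕ Fin K) where
  Adj := liftAdj T c K
  symm := ⟨by
    rintro (p | w) (q | w') h
    · exact ⟨h.1.symm, h.2.symm⟩
    · exact h
    · exact h
    · exact h⟩
  loopless := ⟨by
    rintro (p | w) h
    · exact T.irrefl h.1
    · exact h⟩

variable [Fintype S] [DecidableEq S]

lemma sum_neighbor {V R : Type*} [Fintype V] [AddCommMonoid R] (G : SimpleGraph V)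
    [DecidableRel G.Adj] (v : V) (x : V → R) :
    ∑ w ∈ G.neighborFinset v, x w = ∑ w, if G.Adj v w then x w else 0 := by
  rw [SimpleGraph.neighborFinset_eq_filter, Finset.sum_filter]

lemma lift_sum_inl {R : Type*} [AddCommMonoid R] [DecidableRel T.Adj]
    [DecidableRel (lift T c K).Adj] (s : S) (b : Bool) (x : (S × Bool) ⊕ Fin K → R) :
    ∑ q ∈ (lift T c K).neighborFinset (Sum.inl (s, b)), x q =
      (∑ t ∈ T.neighborFinset s, x (Sum.inl (t, b))) +
        ∑ w : Fin K, if (w : ℕ) < c s then x (Sum.inr w) else 0 := by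
  rw [sum_neighbor, Fintype.sum_sum_type, Fintype.sum_prod_type, sum_neighbor]
  congr 1
  · refine Finset.sum_congr rfl fun t _ => ?_
    rw [Fintype.sum_bool]
    have h : ∀ b' : Bool, (lift T c K).Adj (Sum.inl (s, b)) (Sum.inl (t, b')) ↔
        (T.Adj s t ∧ b = b') := fun b' => Iff.rfl
    by_cases hst : T.Adj s t
    · cases b <;> simp [h, hst]
    · simp [h, hst]
  · refine Finset.sum_congr rfl fun w _ => ?_
    have h : (lift T c K).Adj (Sum.inl (s, b)) (Sum.inr w) ↔ (w : ℕ) < c s := Iff.rfl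
    simp only [h]

lemma lift_sum_inr {R : Type*} [AddCommMonoid R]
    [DecidableRel (lift T c K).Adj] (w : Fin K) (x : (S × Bool) ⊕ Fin K → R) :
    ∑ q ∈ (lift T c K).neighborFinset (Sum.inr w), x q =
      ∑ s : S, if (w : ℕ) < c s then x (Sum.inl (s, true)) + x (Sum.inl (s, false)) else 0 := by
  rw [sum_neighbor, Fintype.sum_sum_type, Fintype.sum_prod_type]
  have h2 : ∀ w' : Fin K, ¬ (lift T c K).Adj (Sum.inr w) (Sum.inr w') := fun w' h => h
  have h3 : ∀ s b, (lift T c K).Adj (Sum.inr w) (Sum.inl (s, b)) ↔ (w : ℕ) < c s :=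
    fun s b => Iff.rfl
  simp only [h2, if_false, Finset.sum_const_zero, add_zero]
  refine Finset.sum_congr rfl fun s _ => ?_
  rw [Fintype.sum_bool]
  simp only [h3]
  split_ifs <;> simp

lemma lift_degree_inl [DecidableRel T.Adj] [DecidableRel (lift T c K).Adj] (s : S) (b : Bool)
    (hc : c s ≤ K) : (lift T c K).degree (Sum.inl (s, b)) = T.degree s + c s := by
  rw [← SimpleGraph.card_neighborFinset_eq_degree, ← SimpleGraph.card_neighborFinset_eq_degree,
    Finset.card_eq_sum_ones, Finset.card_eq_sum_ones, lift_sum_inl]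
  congr 1
  rw [← Finset.sum_filter, ← Finset.card_eq_sum_ones]
  have : (Finset.univ.filter fun w : Fin K => (w : ℕ) < c s) =
      Finset.univ.map (Fin.castLEEmb hc) := by
    ext w
    simp only [Finset.mem_filter, Finset.mem_univ, true_and, Finset.mem_map]
    constructor
    · intro h
      exact ⟨⟨w, h⟩, Fin.ext rfl⟩
    · rintro ⟨a, rfl⟩
      exact a.2
  rw [this]
  simp

lemma lift_degree_inr [DecidableRel (lift T c K).Adj] (w : Fin K) :
    (lift T c K).degree (Sum.inr w) ≠ 1 := by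
  rw [← SimpleGraph.card_neighborFinset_eq_degree, Finset.card_eq_sum_ones, lift_sum_inr]
  intro h
  have h2 : 2 ∣ ∑ s : S, if (w : ℕ) < c s then 1 + 1 else 0 := by
    refine Finset.dvd_sum fun s _ => ?_
    split_ifs <;> simp
  rw [h] at h2
  omega

/-- the doubled graph turns a solution on the base graph into a large Jordan block -/
theorem lift_block [DecidableEq ((S × Bool) ⊕ Fin K)] [DecidableRel T.Adj]
    [DecidableRel (lift T c K).Adj] (z : ℂ) (hz : z ^ 2 ≠ 1)
    (L : ℕ) (q : S → ℕ) (hcK : ∀ s, c s ≤ K) (hq : ∀ s, T.degree s + c s = q s + 1)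
    (y : S → ℂ[X])
    (hy : ∀ s, (X - C z) ^ (L + 1) ∣
      (X ^ 2 + (q s : ℂ[X])) * y s - X * ∑ t ∈ T.neighborFinset s, y t)
    (s₀ t₀ : S) (hadj : T.Adj s₀ t₀) (h₀ : (y t₀).eval z ≠ 0) :
    ∃ s, L + 1 ≤ s ∧ HasJordanBlock (nonbacktrackingMatrix (lift T c K)) s := by
  let x : (S × Bool) ⊕ Fin K → ℂ[X] := fun p =>
    match p with
    | Sum.inl (s, true) => y s
    | Sum.inl (s, false) => - y s
    | Sum.inr _ => 0
  have hadj' : (lift T c K).Adj (Sum.inl (s₀, true)) (Sum.inl (t₀, true)) := ⟨hadj, rfl⟩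
  refine exists_block_of_vertex (lift T c K) z hz L x ?_ _ _ hadj' h₀
  rintro (⟨s, b⟩ | w)
  · rw [lift_sum_inl, lift_degree_inl T c K s b (hcK s), hq]
    have hw : ∀ w : Fin K, x (Sum.inr w) = 0 := fun w => rfl
    simp only [hw, ite_self, Finset.sum_const_zero, add_zero]
    have hcast : (X ^ 2 + ((q s + 1 : ℕ) : ℂ[X]) - 1) = X ^ 2 + (q s : ℂ[X]) := by
      push_cast; ring
    rw [hcast]
    cases b
    · have h1 : x (Sum.inl (s, false)) = - y s := rfl
      have h2 : ∀ t, x (Sum.inl (t, false)) = - y t := fun t => rfl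
      simp only [h1, h2, Finset.sum_neg_distrib]
      have := hy s
      rw [← dvd_neg] at this
      convert this using 1
      ring
    · exact hy s
  · rw [lift_sum_inr]
    have h1 : ∀ s, x (Sum.inl (s, true)) + x (Sum.inl (s, false)) = 0 := by
      intro s
      change y s + - y s = 0
      ring
    have h2 : x (Sum.inr w) = 0 := rfl
    simp [h1, h2]

end Lift

end Pool.Agent.Work.MP_b5bb8b_co
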