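import Mathlib
import Pool.Agent.Work.MP_b5bb8b_co.Lift

namespace Pool.Agent.Work.MP_b5bb8b_co

open Polynomial

set_option linter.unusedSectionVars false
set_option linter.unusedSimpArgs false

/-- vertices of the base tree: a path `0..L`, two pendant vertices at `0`, and on each path
vertex `j+1` a pendant tree `a j - b j - (four leaves)`. -/
abbrev TV (L : ℕ) : Type := Fin (L + 1) ⊕ (Fin 2 ⊕ (Fin L ⊕ (Fin L ⊕ (Fin L × Fin 4))))

abbrev tm {L : ℕ} (i : Fin (L + 1)) : TV L := Sum.inl i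
abbrev te {L : ℕ} (i : Fin 2) : TV L := Sum.inr (Sum.inl i)
abbrev ta {L : ℕ} (i : Fin L) : TV L := Sum.inr (Sum.inr (Sum.inl i))
abbrev tb {L : ℕ} (i : Fin L) : TV L := Sum.inr (Sum.inr (Sum.inr (Sum.inl i)))
abbrev tl {L : ℕ} (i : Fin L × Fin 4) : TV L := Sum.inr (Sum.inr (Sum.inr (Sum.inr i)))

/-- parent-child relation -/
def trel (L : ℕ) : TV L → TV L → Prop
  | Sum.inl i, Sum.inl j => (j : ℕ) = (i : ℕ) + 1
  | Sum.inl i, Sum.inr (Sum.inl _) => (i : ℕ) = 0
  | Sum.inl i, Sum.inr (Sum.inr (Sum.inl j)) => (i : ℕ) = (j : ℕ) + 1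
  | Sum.inr (Sum.inr (Sum.inl i)), Sum.inr (Sum.inr (Sum.inr (Sum.inl j))) => (i : ℕ) = (j : ℕ)
  | Sum.inr (Sum.inr (Sum.inr (Sum.inl i))), Sum.inr (Sum.inr (Sum.inr (Sum.inr j))) =>
      (i : ℕ) = (j.1 : ℕ)
  | _, _ => False

def tree (L : ℕ) : SimpleGraph (TV L) where
  Adj s t := trel L s t ∨ trel L t s
  symm := ⟨fun _ _ h => h.symm⟩
  loopless := ⟨by
    rintro (i | i | i | i | i) h <;> simp [trel] at h⟩

/-- functions on the tree that depend on the position only -/
def mk {R : Type*} (L : ℕ) (ym : ℕ → R) (ye : R) (ya yb yl : ℕ → R) : TV L → R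
  | Sum.inl i => ym i
  | Sum.inr (Sum.inl _) => ye
  | Sum.inr (Sum.inr (Sum.inl j)) => ya j
  | Sum.inr (Sum.inr (Sum.inr (Sum.inl j))) => yb j
  | Sum.inr (Sum.inr (Sum.inr (Sum.inr j))) => yl j.1

lemma sum_fin_eq {R : Type*} [AddCommMonoid R] (n m : ℕ) (g : ℕ → R) :
    (∑ j : Fin n, if (j : ℕ) = m then g j else 0) = if m < n then g m else 0 := by
  split_ifs with h
  · rw [Finset.sum_eq_single (⟨m, h⟩ : Fin n)]
    · simp
    · intro j _ hj
      rw [if_neg]
      intro h'
      exact hj (Fin.ext h')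
    · simp
  · refine Finset.sum_eq_zero fun j _ => ?_
    rw [if_neg]
    intro h'
    exact h (h' ▸ j.2)

section

variable {R : Type*} [AddCommMonoid R] (L : ℕ) (ym : ℕ → R) (ye : R) (ya yb yl : ℕ → R)
  [DecidableRel (tree L).Adj]

lemma nsum_e (k : Fin 2) :
    ∑ t ∈ (tree L).neighborFinset (te k), mk L ym ye ya yb yl t = ym 0 := by
  rw [sum_neighbor]
  simp only [Fintype.sum_sum_type, tree, trel, mk]
  simp only [or_false, false_or, if_false, Finset.sum_const_zero, add_zero]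
  rw [sum_fin_eq]
  simp

lemma nsum_a (j : Fin L) :
    ∑ t ∈ (tree L).neighborFinset (ta j), mk L ym ye ya yb yl t = ym (j + 1) + yb j := by
  rw [sum_neighbor]
  simp only [Fintype.sum_sum_type, tree, trel, mk]
  simp only [or_false, false_or, if_false, Finset.sum_const_zero, add_zero, zero_add]
  simp only [eq_comm (a := (j : ℕ))]
  rw [sum_fin_eq, sum_fin_eq]
  have := j.2
  rw [if_pos (by omega), if_pos this]

lemma nsum_b (j : Fin L) :
    ∑ t ∈ (tree L).neighborFinset (tb j), mk L ym ye ya yb yl t = ya j + 4 • yl j := by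
  rw [sum_neighbor]
  simp only [Fintype.sum_sum_type, tree, trel, mk]
  simp only [or_false, false_or, if_false, Finset.sum_const_zero, add_zero, zero_add]
  rw [Fintype.sum_prod_type]
  simp only [Finset.sum_const, Finset.card_univ, Fintype.card_fin]
  rw [← Finset.smul_sum]
  simp only [eq_comm (a := (j : ℕ))]
  rw [sum_fin_eq, sum_fin_eq]
  rw [if_pos j.2, if_pos j.2]

lemma nsum_l (j : Fin L × Fin 4) :
    ∑ t ∈ (tree L).neighborFinset (tl j), mk L ym ye ya yb yl t = yb j.1 := by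
  rw [sum_neighbor]
  simp only [Fintype.sum_sum_type, tree, trel, mk]
  simp only [or_false, false_or, if_false, Finset.sum_const_zero, add_zero, zero_add]
  rw [sum_fin_eq]
  rw [if_pos j.1.2]

lemma sum_or (i : Fin (L + 1)) :
    (∑ x : Fin (L + 1), if (x : ℕ) = (i : ℕ) + 1 ∨ (i : ℕ) = (x : ℕ) + 1 then ym x else 0) =
      (if (i : ℕ) < L then ym (i + 1) else 0) + (if 0 < (i : ℕ) then ym (i - 1) else 0) := by
  have h1 : ∀ x : Fin (L + 1), (if (x : ℕ) = (i : ℕ) + 1 ∨ (i : ℕ) = (x : ℕ) + 1 then ym x else 0) =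
      (if (x : ℕ) = (i : ℕ) + 1 then ym x else 0) +
      (if (i : ℕ) = (x : ℕ) + 1 then ym x else 0) := by
    intro x
    by_cases h : (x : ℕ) = (i : ℕ) + 1
    · rw [if_pos (Or.inl h), if_pos h, if_neg (by omega), add_zero]
    · by_cases h' : (i : ℕ) = (x : ℕ) + 1
      · rw [if_pos (Or.inr h'), if_neg h, if_pos h', zero_add]
      · rw [if_neg (by tauto), if_neg h, if_neg h', add_zero]
  rw [Finset.sum_congr rfl (fun x _ => h1 x), Finset.sum_add_distrib, sum_fin_eq]
  congr 1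
  · simp
  · by_cases hi : 0 < (i : ℕ)
    · have h2 : ∀ x : Fin (L + 1), (if (i : ℕ) = (x : ℕ) + 1 then ym x else 0) =
          if (x : ℕ) = (i : ℕ) - 1 then ym x else 0 := by
        intro x
        by_cases h : (i : ℕ) = (x : ℕ) + 1
        · rw [if_pos h, if_pos (by omega)]
        · rw [if_neg h, if_neg (by omega)]
      rw [Finset.sum_congr rfl (fun x _ => h2 x), sum_fin_eq, if_pos hi, if_pos]
      have := i.2
      omega
    · rw [if_neg hi]
      refine Finset.sum_eq_zero fun x _ => ?_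
      rw [if_neg (by omega)]

lemma nsum_m (i : Fin (L + 1)) :
    ∑ t ∈ (tree L).neighborFinset (tm i), mk L ym ye ya yb yl t =
      (if (i : ℕ) < L then ym (i + 1) else 0) +
      (if 0 < (i : ℕ) then ym (i - 1) + ya (i - 1) else 2 • ye) := by
  rw [sum_neighbor]
  simp only [Fintype.sum_sum_type, tree, trel, mk]
  simp only [or_false, if_false, Finset.sum_const_zero, add_zero]
  refine (congrArg₂ (· + ·) (?_ : _ = (if (i : ℕ) < L then ym (i + 1) else 0) +
    (if 0 < (i : ℕ) then ym (i - 1) else 0)) rfl).trans ?_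
  · rw [← sum_or]
  rw [add_assoc]
  congr 1
  by_cases hi : 0 < (i : ℕ)
  · have h0 : ¬ ((i : ℕ) = 0) := by omega
    simp only [h0, if_false, Finset.sum_const_zero, zero_add, if_pos hi]
    congr 1
    have h2 : ∀ x : Fin L, (if (i : ℕ) = (x : ℕ) + 1 then ya x else 0) =
        if (x : ℕ) = (i : ℕ) - 1 then ya x else 0 := by
      intro x
      by_cases h : (i : ℕ) = (x : ℕ) + 1
      · rw [if_pos h, if_pos (by omega)]
      · rw [if_neg h, if_neg (by omega)]
    rw [Finset.sum_congr rfl (fun x _ => h2 x), sum_fin_eq, if_pos]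
    have := i.2
    omega
  · have h0 : (i : ℕ) = 0 := by omega
    have h3 : ∀ x : Fin L, ¬ ((i : ℕ) = (x : ℕ) + 1) := by intro x; omega
    simp only [if_neg hi, h3, if_false, Finset.sum_const_zero, add_zero, zero_add, h0, if_true]
    simp

end

end Pool.Agent.Work.MP_b5bb8b_co
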