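import Mathlib
import Pool.Agent.Work.MP_b5bb8b_co.Tree

namespace Pool.Agent.Work.MP_b5bb8b_co

open Polynomial

/-- numbers of extra common neighbours -/
def cc (L : ℕ) : TV L → ℕ := mk L (fun i => if i < L then 16 else 17) 12 (fun _ => 8)
  (fun _ => 8) (fun _ => 24)

def qq (L : ℕ) : TV L → ℕ := mk L (fun _ => 18) 12 (fun _ => 9) (fun _ => 12) (fun _ => 24)

noncomputable def Rp : ℂ[X] := X ^ 4 + 28 * X ^ 2 + 216
noncomputable def Dp : ℂ[X] := X ^ 2 + 12
noncomputable def ym (L i : ℕ) : ℂ[X] := Rp ^ i * (X * Dp) ^ (L - i) * Dp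
noncomputable def ye (L : ℕ) : ℂ[X] := X * (X * Dp) ^ L
noncomputable def yj (L j : ℕ) : ℂ[X] := Rp ^ j * (X * Dp) ^ (L - 1 - j)
noncomputable def ya (L j : ℕ) : ℂ[X] := X * (X ^ 4 + 32 * X ^ 2 + 288) * yj L j
noncomputable def yb (L j : ℕ) : ℂ[X] := X ^ 2 * (X ^ 2 + 24) * yj L j
noncomputable def yl (L j : ℕ) : ℂ[X] := X ^ 3 * yj L j

noncomputable def yy (L : ℕ) : TV L → ℂ[X] := mk L (ym L) (ye L) (ya L) (yb L) (yl L)

lemma tree_degree (L : ℕ) [DecidableRel (tree L).Adj] (s : TV L) :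
    (tree L).degree s + cc L s = qq L s + 1 := by
  have h1 : (fun _ => 1 : TV L → ℕ) = mk L (fun _ => 1) 1 (fun _ => 1) (fun _ => 1)
      (fun _ => 1) := by
    funext s
    rcases s with i | i | i | i | i <;> rfl
  have h2 : (tree L).degree s = ∑ t ∈ (tree L).neighborFinset s, (fun _ => 1 : TV L → ℕ) t := by
    rw [← SimpleGraph.card_neighborFinset_eq_degree, Finset.card_eq_sum_ones]
  rw [h2, h1]
  rcases s with i | i | i | i | i
  · rw [nsum_m]
    simp only [cc, qq, mk]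
    split_ifs <;> simp
  · rw [nsum_e]; simp [cc, qq, mk]
  · rw [nsum_a]; simp [cc, qq, mk]
  · rw [nsum_b]; simp [cc, qq, mk]
  · rw [nsum_l]; simp [cc, qq, mk]

lemma cc_le (L : ℕ) (s : TV L) : cc L s ≤ 24 := by
  rcases s with i | i | i | i | i <;> simp only [cc, mk] <;> try split_ifs
  all_goals norm_num

lemma eq_main (L : ℕ) [DecidableRel (tree L).Adj] (i : Fin (L + 1)) :
    (X ^ 2 + (qq L (tm i) : ℂ[X])) * yy L (tm i) -
      X * ∑ t ∈ (tree L).neighborFinset (tm i), yy L t =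
      if (i : ℕ) = L then Rp ^ (L + 1) else 0 := by
  have hi := i.2
  rw [yy, nsum_m]
  simp only [qq, mk, ym, ye, ya, yj, Nat.cast_ofNat]
  by_cases h0 : 0 < (i : ℕ)
  · obtain ⟨j, hj⟩ : ∃ j, (i : ℕ) = j + 1 := ⟨(i : ℕ) - 1, by omega⟩
    rw [if_pos h0, hj, Nat.add_sub_cancel]
    by_cases hL : j + 1 < L
    · obtain ⟨m, rfl⟩ : ∃ m, L = j + 2 + m := ⟨L - (j + 2), by omega⟩
      rw [if_pos hL, if_neg (by omega)]
      have e1 : j + 2 + m - (j + 1) = m + 1 := by omega
      have e2 : j + 2 + m - (j + 1 + 1) = m := by omega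
      have e3 : j + 2 + m - j = m + 2 := by omega
      have e4 : j + 2 + m - 1 - j = m + 1 := by omega
      rw [e1, e2, e3, e4]
      simp only [Rp, Dp]
      ring
    · obtain rfl : L = j + 1 := by omega
      rw [if_neg hL, if_pos rfl]
      have e1 : j + 1 - (j + 1) = 0 := by omega
      have e3 : j + 1 - j = 1 := by omega
      have e4 : j + 1 - 1 - j = 0 := by omega
      rw [e1, e3, e4]
      simp only [Rp, Dp]
      ring
  · have hj : (i : ℕ) = 0 := by omega
    rw [if_neg h0, hj]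
    by_cases hL : 0 < L
    · obtain ⟨m, rfl⟩ : ∃ m, L = m + 1 := ⟨L - 1, by omega⟩
      rw [if_pos hL, if_neg (by omega)]
      have e1 : m + 1 - 0 = m + 1 := by omega
      have e2 : m + 1 - (0 + 1) = m := by omega
      rw [e1, e2]
      simp only [Rp, Dp]
      ring
    · obtain rfl : L = 0 := by omega
      simp only [Rp, Dp]
      norm_num
      ring

lemma eq_all (L : ℕ) [DecidableRel (tree L).Adj] (s : TV L) :
    Rp ^ (L + 1) ∣ (X ^ 2 + (qq L s : ℂ[X])) * yy L s -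
      X * ∑ t ∈ (tree L).neighborFinset s, yy L t := by
  rcases s with i | i | i | i | i
  · have := eq_main L i
    rw [this]
    split_ifs <;> simp
  · rw [yy, nsum_e]
    simp only [qq, mk, ym, ye, Nat.cast_ofNat]
    convert dvd_zero _ using 1
    simp only [Rp, Dp, Nat.sub_zero]
    ring
  · rw [yy, nsum_a]
    simp only [qq, mk, ym, ya, yb, yj, Nat.cast_ofNat]
    convert dvd_zero _ using 1
    have e1 : L - (↑i + 1) = L - 1 - ↑i := by omega
    rw [e1]
    simp only [Rp, Dp]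
    ring
  · rw [yy, nsum_b]
    simp only [qq, mk, ya, yb, yl, yj, Nat.cast_ofNat]
    convert dvd_zero _ using 1
    simp only [Rp, Dp]
    ring
  · rw [yy, nsum_l]
    simp only [qq, mk, yb, yl, yj, Nat.cast_ofNat]
    convert dvd_zero _ using 1
    simp only [Rp, Dp]
    ring

lemma exists_root : ∃ z : ℂ, Rp.eval z = 0 := by
  have h : Rp.degree ≠ 0 := by
    have : Rp.degree = 4 := by
      rw [Rp]
      compute_degree!
    rw [this]
    norm_num
  exact IsAlgClosed.exists_root Rp h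

theorem big_block (L K : ℕ) (hK : 24 ≤ K) [DecidableEq ((TV L × Bool) ⊕ Fin K)]
    [DecidableRel (lift (tree L) (cc L) K).Adj] :
    ∃ s, L + 1 ≤ s ∧ HasJordanBlock (nonbacktrackingMatrix (lift (tree L) (cc L) K)) s := by
  classical
  obtain ⟨z, hz⟩ := exists_root
  have hzeq : z ^ 4 + 28 * z ^ 2 + 216 = 0 := by
    simpa [Rp] using hz
  have hz1 : z ^ 2 ≠ 1 := by
    intro h
    have h4 : z ^ 4 = 1 := by
      calc z ^ 4 = (z ^ 2) ^ 2 := by ring
        _ = 1 := by rw [h]; norm_num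
    rw [h, h4] at hzeq
    norm_num at hzeq
  have hz0 : z ≠ 0 := by
    intro h
    rw [h] at hzeq
    norm_num at hzeq
  have hz12 : z ^ 2 + 12 ≠ 0 := by
    intro h
    have h2 : z ^ 2 = -12 := by linear_combination h
    have h4 : z ^ 4 = 144 := by
      calc z ^ 4 = (z ^ 2) ^ 2 := by ring
        _ = 144 := by rw [h2]; norm_num
    rw [h2, h4] at hzeq
    norm_num at hzeq
  have hdvd : (X - C z) ∣ Rp := Polynomial.dvd_iff_isRoot.mpr hz
  refine lift_block (tree L) (cc L) K z hz1 L (qq L) (fun s => (cc_le L s).trans hK)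
    (tree_degree L) (yy L) (fun s => (pow_dvd_pow_of_dvd hdvd _).trans (eq_all L s))
    (te 0) (tm 0) (Or.inr (by simp [trel])) ?_
  simp only [yy, mk, ym, Fin.val_zero, pow_zero, one_mul, Nat.sub_zero, eval_mul, eval_pow, eval_X]
  have hD : Dp.eval z ≠ 0 := by simpa [Dp] using hz12
  exact mul_ne_zero (pow_ne_zero _ (mul_ne_zero hz0 hD)) hD

lemma mem_blockSizes (L K : ℕ) (hK : 24 ≤ K) :
    ∃ s, L + 1 ≤ s ∧ s ∈ blockSizes (14 * L + 6 + K) := by
  classical
  obtain ⟨s, hs, h⟩ := big_block L K hK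
  refine ⟨s, hs, (TV L × Bool) ⊕ Fin K, inferInstance, inferInstance,
    lift (tree L) (cc L) K, inferInstance, ?_, ?_, ?_, ?_⟩
  · simp only [Fintype.card_sum, Fintype.card_prod, Fintype.card_fin, Fintype.card_bool]
    ring
  · rintro (⟨t, b⟩ | w)
    · rw [lift_degree_inl _ _ _ _ _ ((cc_le L t).trans hK), tree_degree]
      rcases t with i | i | i | i | i <;> simp [qq, mk]
    · exact lift_degree_inr _ _ _ _
  · exact ⟨Sum.inl (te 0, true), Sum.inl (tm 0, true), Or.inr (by simp [trel]), rfl⟩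
  · exact h

lemma blockSizes_le (n s : ℕ) (h : s ∈ blockSizes n) : s ≤ 2 * n + 1 := by
  obtain ⟨V, _, _, G, _, hn, hG, _, hs⟩ := h
  rw [← hn]
  exact block_le G hG s hs

lemma blockSizes_nonempty (n : ℕ) (hn : 3 ≤ n) : (blockSizes n).Nonempty := by
  classical
  have hpos : 0 < n := by omega
  let a : (⊤ : SimpleGraph (Fin n)).Dart :=
    ⟨(⟨0, by omega⟩, ⟨1, by omega⟩), by simp [Fin.ext_iff]⟩
  have : Nonempty (⊤ : SimpleGraph (Fin n)).Dart := ⟨a⟩
  obtain ⟨c, hc⟩ := Module.End.exists_eigenvalue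
    (Matrix.toLin' (nonbacktrackingMatrix (⊤ : SimpleGraph (Fin n))) :
      Module.End ℂ ((⊤ : SimpleGraph (Fin n)).Dart → ℂ))
  obtain ⟨x, hx⟩ := hc.exists_hasEigenvector
  obtain ⟨s, _, hs⟩ := exists_hasJordanBlock (nonbacktrackingMatrix (⊤ : SimpleGraph (Fin n)))
    c 0 x (by simpa using hx.2) (by
      rw [zero_add, pow_one, LinearMap.sub_apply, hx.apply_eq_smul, Module.algebraMap_end_apply,
        sub_self])
  refine ⟨s, Fin n, inferInstance, inferInstance, ⊤, inferInstance, by simp, ?_, ?_, hs⟩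
  · intro v
    simp only [SimpleGraph.complete_graph_degree, Fintype.card_fin]
    omega
  · exact ⟨a.fst, a.snd, a.adj⟩

theorem main (n : ℕ) (hn : 3 ≤ n) :
    IsGreatest (blockSizes n) (f n) ∧ n ≤ 14 * f n + 29 ∧ f n ≤ 2 * n + 1 := by
  have hbdd : BddAbove (blockSizes n) := ⟨2 * n + 1, fun s hs => blockSizes_le n s hs⟩
  have hmem : f n ∈ blockSizes n := Nat.sSup_mem (blockSizes_nonempty n hn) hbdd
  refine ⟨⟨hmem, fun s hs => le_csSup hbdd hs⟩, ?_, blockSizes_le n _ hmem⟩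
  by_cases h30 : n < 30
  · omega
  · obtain ⟨s, hs, hs2⟩ := mem_blockSizes ((n - 30) / 14) (n - 14 * ((n - 30) / 14) - 6)
      (by omega)
    have h1 : 14 * ((n - 30) / 14) + 6 + (n - 14 * ((n - 30) / 14) - 6) = n := by omega
    rw [h1] at hs2
    have h2 : s ≤ f n := le_csSup hbdd hs2
    omega

end Pool.Agent.Work.MP_b5bb8b_co
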